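import Pool.Agent.Lib.MP_72b52d_lc.CR.Stmt

set_option autoImplicit false

/-!
# MP_0d2ecd_gt : topological spaces in a transitive model of ZFC

`V`, `nat`, `IsTransModelZFC` are defined in the imported file.
-/

namespace Pool.Agent.NAM

open Pool.Agent.CR (V nat)

/-- The elements of the set `A`. -/
abbrev El (A : V) : Type 1 := {x : V // x ∈ A}

/-- The subset `O` of `A` as a set of `V`. -/
noncomputable def cs {A : V} (O : Set (El A)) : V := ZFSet.sep (fun z => ∃ h : z ∈ A, ⟨z, h⟩ ∈ O) A

/-- The family `F` of subsets of `A` as a set of `V`. -/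
noncomputable def fam {A : V} (F : Set (Set (El A))) : V :=
  ZFSet.sep (fun w => ∃ O ∈ F, cs O = w) A.powerset

/-- The sequence `W` of subsets of `A` as a set of `V`: the set of all pairs `(n, W n)`. -/
noncomputable def seqS {A : V} (W : ℕ → Set (El A)) : V :=
  ZFSet.range (fun n : ℕ => ZFSet.pair (nat n) (cs (W n)))

/-- In the model `N`, the family `F` is countable. -/
def CtblIn (N : Set V) {A : V} (F : Set (Set (El A))) : Prop :=
  ∃ W : ℕ → Set (El A), seqS W ∈ N ∧ F ⊆ Set.range W

/-- In the model `N`, `T` is a topology on the set `A`. -/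
structure TopIn (N : Set V) (A : V) (T : Set (Set (El A))) : Prop where
  mem : fam T ∈ N
  univ : Set.univ ∈ T
  inter : ∀ O ∈ T, ∀ O' ∈ T, O ∩ O' ∈ T
  union : ∀ S ⊆ T, fam S ∈ N → ⋃₀ S ∈ T

/-- `B` is a base of the topology `T`. -/
def IsBase {A : V} (B T : Set (Set (El A))) : Prop :=
  B ⊆ T ∧ ∀ O ∈ T, ∀ x ∈ O, ∃ U ∈ B, x ∈ U ∧ U ⊆ O

/-- `B` is of rank one: the members of `B` containing a given point form a chain. -/
def RankOne {A : V} (B : Set (Set (El A))) : Prop :=
  ∀ p, ∀ U ∈ B, ∀ U' ∈ B, p ∈ U → p ∈ U' → U ⊆ U' ∨ U' ⊆ U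

/-- In the model `N`, the space is non-archimedean: it has a base of rank one. -/
def NonArchimedeanIn (N : Set V) {A : V} (T : Set (Set (El A))) : Prop :=
  ∃ B : Set (Set (El A)), fam B ∈ N ∧ IsBase B T ∧ RankOne B

/-- In the model `N`, the space is perfectly normal: it is `T1`, disjoint closed sets have disjoint
open neighbourhoods, and each closed set is the intersection of a sequence of open sets of `N`. -/
structure PerfectlyNormalIn (N : Set V) {A : V} (T : Set (Set (El A))) : Prop where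
  t1 : ∀ x : El A, {x}ᶜ ∈ T
  normal : ∀ K L : Set (El A), Kᶜ ∈ T → Lᶜ ∈ T → Disjoint K L →
    ∃ O ∈ T, ∃ O' ∈ T, K ⊆ O ∧ L ⊆ O' ∧ Disjoint O O'
  perfect : ∀ K : Set (El A), Kᶜ ∈ T →
    ∃ W : ℕ → Set (El A), seqS W ∈ N ∧ (∀ n, W n ∈ T) ∧ K = ⋂ n, W n

/-- In the model `N`, the space has a point-countable base: a base each point of which lies in
countably many members only. -/
def PointCountableBaseIn (N : Set V) {A : V} (T : Set (Set (El A))) : Prop :=
  ∃ B : Set (Set (El A)), fam B ∈ N ∧ IsBase B T ∧ ∀ x : El A, CtblIn N {U ∈ B | x ∈ U}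

/-- `Q1` in the model `N`: every perfectly normal non-archimedean space of `N` has a point-countable
base in `N`. -/
def Q1 (N : Set V) : Prop :=
  ∀ A ∈ N, ∀ T : Set (Set (El A)), TopIn N A T → PerfectlyNormalIn N T → NonArchimedeanIn N T →
    PointCountableBaseIn N T

end Pool.Agent.NAM
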