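import Pool.Agent.Lib.MP_0d2ecd_gt.Souslin
import Pool.Agent.Lib.MP_0d2ecd_gt.Mod.Q
import Pool.Agent.Lib.MP_d988c5_lc.FW

set_option autoImplicit false

/-!
# MP_0d2ecd_gt : the forcing conditions, the objects and the names
-/

open scoped Ordinal

namespace Pool.Agent.NAM

open Pool.Agent.Lib.MP_0d2ecd_gt (W2 D)
open Pool.Agent.CR (Nm V nat natN Memf Eqf)

/-- the canonical well-ordered set of order type `ω₁` -/
abbrev W1 : Type := (ω_ 1 : Ordinal.{0}).ToType

/-- `0`-`1` functions on proper initial segments of `ω₂` -/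
@[ext] structure Nd : Type where
  len : W2
  f : W2 → Bool
  out : ∀ ξ, len ≤ ξ → f ξ = false

/-- `t` extends `s` -/
def Nd.Ex (s t : Nd) : Prop := s.len ≤ t.len ∧ ∀ ξ < s.len, t.f ξ = s.f ξ

/-- `t` extends `s` properly -/
def Nd.Ec (s t : Nd) : Prop := s.len < t.len ∧ ∀ ξ < s.len, t.f ξ = s.f ξ

/-- the restriction of `s` to `γ` -/
noncomputable def Nd.res (s : Nd) (γ : W2) : Nd where
  len := γ
  f := fun ξ => if ξ < γ then s.f ξ else false
  out := fun _ hξ => if_neg (not_lt.2 hξ)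

/-- the conditions: coherent sequences `r γ`, `γ ≤ top` (the values above `top` do not matter) -/
structure Cn where
  top : W2
  r : W2 → Nd
  len : ∀ γ, (r γ).len = γ
  coh : ∀ γ δ, δ ≤ γ → γ ≤ top → (D δ (r γ).f (r δ).f).Finite

instance : Preorder Cn where
  le q p := p.top ≤ q.top ∧ ∀ γ ≤ p.top, q.r γ = p.r γ
  le_refl p := ⟨le_rfl, fun _ _ => rfl⟩
  le_trans r q p h1 h2 := ⟨h2.1.trans h1.1, fun γ hγ =>
    (h1.2 γ (hγ.trans h2.1)).trans (h2.2 γ hγ)⟩

/-- the top node -/
def Cn.tp (p : Cn) : Nd := p.r p.top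

/-- the nodes of the tree decided by `p` -/
def Cn.T (p : Cn) : Set Nd := {s | s.len ≤ p.top ∧ (D s.len s.f (p.r s.len).f).Finite}

/-- the points of the space decided by `p`: the branches which are not nodes -/
def Cn.P (p : Cn) : Set Nd :=
  {x | x.len ≤ p.top ∧ (∀ γ < x.len, (D γ x.f (p.r γ).f).Finite) ∧
    ¬ (D x.len x.f (p.r x.len).f).Finite}

/-- `q` extends `p` exactly at the top -/
def Ee (q p : Cn) : Prop := q ≤ p ∧ ∀ ξ < p.top, q.tp.f ξ = p.tp.f ξ

/-! ### objects -/

/-- objects -/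
inductive Ob : Type 1
  | nm (τ : Nm Cn) : Ob
  | cn (p : Cn) : Ob
  | nd (x : Nd) : Ob
  | od (α : W2) : Ob
  | ss (S : Set Nd) : Ob
  | kk (k : ℕ) : Ob
  | w1 (i : W1) : Ob
  | no : Ob
  | sq (f : ℕ → Ob) : Ob
  | f1 (F : W1 → Ob) : Ob

/-- the name of an object -/
def Ob.un : Ob → Nm Cn
  | .nm τ => τ
  | _ => Nm.emp

/-- the presentation -/
def pp : FW.Pr Cn Ob where
  nm := .nm
  cn := .cn
  un := Ob.un
  un_nm _ := rfl
  cn_inj _ _ h := by simpa using h

/-- the generic tree -/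
def TG (M : Set Ob) (G : Set Cn) : Set Nd := {s | Ob.nd s ∈ M ∧ ∃ p ∈ G, s ∈ p.T}

/-- the points of the generic space -/
def PG (M : Set Ob) (G : Set Cn) : Set Nd := {x | Ob.nd x ∈ M ∧ ∃ p ∈ G, x ∈ p.P}

/-- the basic set given by the node `s` -/
def BG (M : Set Ob) (G : Set Cn) (s : Nd) : Set Nd := {x | x ∈ PG M G ∧ s.Ec x}

/-- the open set given by the set `S` of nodes -/
def OG (M : Set Ob) (G : Set Cn) (S : Set Nd) : Set Nd := {x | x ∈ PG M G ∧ ∃ s ∈ S, s.Ec x}

/-- open sets of points -/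
def Op (M : Set Ob) (G : Set Cn) (O : Set Nd) : Prop :=
  O ⊆ PG M G ∧ ∀ x ∈ O, ∃ s ∈ TG M G, s.Ec x ∧ BG M G s ⊆ O

/-! ### names -/

/-- the name of a set: the values of the names `a i` for `i` in the set decided by `D` -/
def bag {ι : Type} (a : ι → Nm Cn) (D : ι → Set Cn) : Nm Cn :=
  .mk {y : Cn × ι // y.1 ∈ D y.2} (fun y => a y.1.2) (fun y => y.1.1)

/-- the name of the element `x`: its value is the set of the values of the names of the smaller
elements of the world (in a well-order) -/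
noncomputable def elN (x : Nd) : Nm Cn :=
  (IsWellFounded.wf (r := (WellOrderingRel : Nd → Nd → Prop))).fix (C := fun _ => Nm Cn)
    (fun x ih => .mk {z : Nd × Cn // WellOrderingRel z.1 x} (fun z => ih z.1.1 z.2)
      (fun z => z.1.2)) x

/-- the name of the space -/
noncomputable def XN : Nm Cn := bag elN (fun x => {p | x ∈ p.P})

/-- the underlying set of the space -/
noncomputable def Av (M : Set Ob) (G : Set Cn) : V := pp.vl M G XN

/-- the subset of the space given by a set of points -/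
noncomputable def im (M : Set Ob) (G : Set Cn) (O : Set Nd) : Set (El (Av M G)) :=
  {z | ∃ x ∈ O, z.1 = pp.vl M G (elN x)}

/-- the topology -/
noncomputable def TT (M : Set Ob) (G : Set Cn) : Set (Set (El (Av M G))) :=
  {W | ∃ O, Op M G O ∧ W = im M G O ∧ cs W ∈ pp.N M G}

/-- the base -/
noncomputable def BB (M : Set Ob) (G : Set Cn) : Set (Set (El (Av M G))) :=
  {W | ∃ s ∈ TG M G, W = im M G (BG M G s)}

/-- `p` forces that the basic set of `t` is contained in the set named by `σ` -/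
def FD (σ : Nm Cn) (p : Cn) (t : Nd) : Prop := ∀ q ≤ p, ∀ x ∈ q.P, t.Ec x → Memf (elN x) σ q

/-- `p` forces that the set named by `σ` is contained in the basic set of `s` -/
def FU (σ : Nm Cn) (p : Cn) (s : Nd) : Prop := ∀ q ≤ p, ∀ x ∈ q.P, Memf (elN x) σ q → s.Ec x

end Pool.Agent.NAM
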