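import Pool.Agent.Lib.MP_0d2ecd_gt.Mod.P.BG
import Pool.Agent.Lib.MP_0d2ecd_gt.Mod.P.EL
import Pool.Agent.Lib.MP_0d2ecd_gt.Mod.P.XN
import Pool.Agent.Lib.MP_0d2ecd_gt.Mod.P.IJ
import Pool.Agent.Lib.MP_0d2ecd_gt.Mod.P.OS
import Pool.Agent.Lib.MP_0d2ecd_gt.Mod.P.CO
import Pool.Agent.Lib.MP_0d2ecd_gt.Mod.P.BM
import Pool.Agent.Lib.MP_0d2ecd_gt.Mod.P.ZC
import Pool.Agent.Lib.MP_0d2ecd_gt.Mod.P.E1
import Pool.Agent.Lib.MP_0d2ecd_gt.Mod.P.NP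
import Pool.Agent.Lib.MP_0d2ecd_gt.Mod.P.GF
import Pool.Agent.Lib.MP_0d2ecd_gt.Mod.P.LB
import Pool.Agent.Lib.MP_0d2ecd_gt.Mod.P.FL
import Pool.Agent.Lib.MP_0d2ecd_gt.Mod.P.AL
import Pool.Agent.Lib.MP_0d2ecd_gt.Mod.P.SE
import Pool.Agent.Lib.MP_0d2ecd_gt.Mod.P.GN
import Pool.Agent.Lib.MP_0d2ecd_gt.Mod.P.FD
import Pool.Agent.Lib.MP_0d2ecd_gt.Mod.P.RP
import Pool.Agent.Lib.MP_0d2ecd_gt.Mod.P.TM
import Pool.Agent.Lib.MP_0d2ecd_gt.Mod.P.TP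
import Pool.Agent.Lib.MP_0d2ecd_gt.Mod.P.SP
import Pool.Agent.Lib.MP_0d2ecd_gt.Mod.P.T1
import Pool.Agent.Lib.MP_0d2ecd_gt.Mod.P.NO
import Pool.Agent.Lib.MP_0d2ecd_gt.Mod.P.SS
import Pool.Agent.Lib.MP_0d2ecd_gt.Mod.P.OE
import Pool.Agent.Lib.MP_0d2ecd_gt.Mod.P.PE
import Pool.Agent.Lib.MP_0d2ecd_gt.Mod.P.P6
import Pool.Agent.Lib.MP_0d2ecd_gt.Mod.P.P7
import Pool.Agent.Lib.MP_0d2ecd_gt.Mod.P.G6
import Pool.Agent.Lib.MP_0d2ecd_gt.Mod.P.FU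
import Pool.Agent.Lib.MP_0d2ecd_gt.Mod.P.GE
import Pool.Agent.Lib.MP_0d2ecd_gt.Mod.P.SQ
import Pool.Agent.Lib.MP_0d2ecd_gt.Mod.P.CH
import Pool.Agent.Lib.MP_0d2ecd_gt.Mod.P.FC
import Pool.Agent.Lib.MP_0d2ecd_gt.Mod.P.NC
import Pool.Agent.Lib.MP_0d2ecd_gt.Mod.P.FI

set_option autoImplicit false

/-!
# MP_0d2ecd_gt : assembly
-/

namespace Pool.Agent.NAM

theorem t_BG : S_BG := p_BG 

theorem t_EL : S_EL := p_EL 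

theorem t_XN : S_XN := p_XN t_BG t_EL

theorem t_IJ : S_IJ := p_IJ 

theorem t_OS : S_OS := p_OS t_BG t_EL t_XN

theorem t_CO : S_CO := p_CO 

theorem t_BM : S_BM := p_BM t_IJ t_BG t_EL t_XN t_OS t_CO

theorem t_ZC : S_ZC := p_ZC t_IJ

theorem t_E1 : S_E1 := p_E1 

theorem t_NP : S_NP := p_NP 

theorem t_GF : S_GF := p_GF t_E1 t_NP

theorem t_LB : S_LB := p_LB 

theorem t_FL : S_FL := p_FL 

theorem t_AL : S_AL := p_AL t_LB t_E1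

theorem t_SE : S_SE := p_SE t_LB t_E1 t_NP t_FL t_AL

theorem t_GN : S_GN := p_GN t_E1 t_AL

theorem t_FD : S_FD := p_FD t_EL t_XN t_NP

theorem t_RP : S_RP := p_RP t_E1 t_NP t_SE t_GN t_EL t_XN t_GF t_FD

theorem t_TM : S_TM := p_TM t_IJ t_BG t_EL t_XN t_OS t_GF t_RP

theorem t_TP : S_TP := p_TP t_XN t_ZC t_IJ t_GF t_TM

theorem t_SP : S_SP := p_SP t_NP t_GF

theorem t_T1 : S_T1 := p_T1 t_XN t_OS t_SP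

theorem t_NO : S_NO := p_NO t_XN t_ZC t_IJ t_CO t_BM t_TP

theorem t_SS : S_SS := p_SS t_BG t_OS

theorem t_OE : S_OE := p_OE t_NP t_GF

theorem t_PE : S_PE := p_PE t_XN t_OS t_SS t_GF t_RP t_OE

theorem t_P6 : S_P6 := p_P6 t_NP

theorem t_P7 : S_P7 := p_P7 t_NP t_P6

theorem t_G6 : S_G6 := p_G6 t_NP t_P6 t_P7

theorem t_FU : S_FU := p_FU t_EL t_XN t_NP

theorem t_GE : S_GE := p_GE t_E1 t_GN

theorem t_SQ : S_SQ := p_SQ t_GE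

theorem t_CH : S_CH := p_CH t_LB t_E1 t_NP t_FL

theorem t_FC : S_FC := p_FC t_NP t_CH t_EL t_XN t_GF t_G6 t_FD t_FU t_IJ t_BM

theorem t_NC : S_NC := p_NC t_XN t_EL t_GF t_G6 t_FD t_FU t_IJ t_SQ t_FC t_NP

theorem t_FI : S_FI := p_FI t_XN t_BM t_TP t_T1 t_NO t_PE t_NC

end Pool.Agent.NAM
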