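import Pool.Agent.Lib.MP_0d2ecd_gt.Mod.Defs

set_option autoImplicit false

/-!
# MP_0d2ecd_gt : the statements of the pieces

Each piece is a proposition `S_...`. The proofs are in the files `P/...`.
-/

open scoped Ordinal Cardinal

namespace Pool.Agent.NAM

open Pool.Agent.Lib.MP_0d2ecd_gt (W2 D)
open Pool.Agent.CR (V Nm nat natN Memf Eqf IsTransModelZFC)
open Pool.Agent.FW (Ev)

/-! ### combinatorics of the conditions -/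

/-- lower bounds of short chains in the exact order -/
def S_LB : Prop := ∀ (J : Type) [LinearOrder J] [Nonempty J] (f : J → Cn), #J ≤ ℵ_ 1 →
  (∀ i j, i ≤ j → Ee (f j) (f i)) → ∃ q, (∀ j, Ee q (f j)) ∧ ∀ ξ < q.top, ∃ j, ξ < (f j).top

/-- the exact order is transitive, and every extension can be made exact -/
def S_E1 : Prop := (∀ p, Ee p p) ∧ (∀ p q r, Ee r q → Ee q p → Ee r p) ∧
  (∀ p r, r ≤ p → ∃ q, q ≤ r ∧ Ee q p) ∧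
  ∀ (p : Cn) (α : W2), ∃ q, Ee q p ∧ α < q.top ∧ p.top < q.top

/-- basic facts about nodes and points -/
def S_NP : Prop :=
  (∀ p q : Cn, q ≤ p → p.T ⊆ q.T ∧ p.P ⊆ q.P) ∧
  (∀ p q : Cn, q ≤ p → (∀ s ∈ q.T, s.len ≤ p.top → s ∈ p.T) ∧
    ∀ x ∈ q.P, x.len ≤ p.top → x ∈ p.P) ∧
  (∀ (p : Cn) (s : Nd) (γ : W2), s ∈ p.T → γ ≤ s.len → s.res γ ∈ p.T) ∧
  (∀ (p : Cn) (x : Nd) (γ : W2), x ∈ p.P → γ < x.len → x.res γ ∈ p.T ∧ (x.res γ).Ec x) ∧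
  (∀ (p : Cn) (x : Nd) (γ : W2), x ∈ p.P → γ < x.len → ∃ δ, γ < δ ∧ δ < x.len) ∧
  (∀ (p : Cn) (x : Nd), x ∈ p.P → ∃ γ, γ < x.len) ∧ ∀ p : Cn, p.tp ∈ p.T

/-- one step: any extension of any modification of the top node -/
def S_FL : Prop := ∀ (p r : Cn) (s t : Nd), r ≤ p → s ∈ p.T → s.len = p.top → t ∈ r.T →
  s.Ex t → ∃ q, q ≤ r ∧ Ee q p ∧ r.top < q.top ∧ ∀ u : Nd, u.len = q.top →
    (∀ ξ < p.top, u.f ξ = s.f ξ) → (∀ ξ, p.top ≤ ξ → ξ < q.top → u.f ξ = q.tp.f ξ) → t.Ex u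

/-- few dense sets have a common element in the exact order -/
def S_AL : Prop := ∀ (p : Cn) (A : Type) (E : A → Set Cn), #A ≤ ℵ_ 1 →
  (∀ a q, Ee q p → ∃ r, Ee r q ∧ r ∈ E a) → (∀ a q r, q ∈ E a → Ee r q → r ∈ E a) →
  ∃ q, Ee q p ∧ ∀ a, q ∈ E a

/-- sealing -/
def S_SE : Prop := ∀ R : Cn → Nd → Prop, (∀ p q t, q ≤ p → R p t → R q t) →
  ∀ p, ∃ q, Ee q p ∧ ∀ s ∈ q.T, s.len = q.top →
    (∃ γ < q.top, R q (s.res γ)) ∨ ∀ r ≤ q, ∀ t ∈ r.T, s.Ex t → ¬ R r t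

/-- deciding few choices -/
def S_GN : Prop := ∀ (A : Type) (β : Type 1) (R : A → β → Cn → Prop), #A ≤ ℵ_ 1 →
  (∀ a x p q, q ≤ p → R a x p → R a x q) → ∀ p, (∀ a, ∀ q ≤ p, ∃ r ≤ q, ∃ x, R a x r) →
  ∃ q, Ee q p ∧ ∃ F : A → β, ∀ a, R a (F a) q

/-- there are points above every node -/
def S_P6 : Prop := ∀ (p : Cn) (s : Nd), s ∈ p.T → ∃ q ≤ p, ∃ x ∈ q.P, s.Ec x

/-- there are points above a node but not above a longer one -/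
def S_P7 : Prop := ∀ (p : Cn) (s t : Nd), s ∈ p.T → t ∈ p.T → t.Ec s →
  ∃ q ≤ p, ∃ x ∈ q.P, t.Ec x ∧ ¬ s.Ec x

/-- chains of length `ω₁` -/
def S_CH : Prop := ∀ R : Cn → Nd → Nd → Nm Cn → Prop,
  (∀ p q s t σ, q ≤ p → R p s t σ → R q s t σ) → ∀ p0 : Cn,
  (∀ q ≤ p0, ∀ s ∈ q.T, ∃ r ≤ q, ∃ t ∈ r.T, ∃ σ, s.Ec t ∧ R r s t σ) →
  ∀ q ≤ p0, ∃ q' ≤ q, ∃ (s t : W1 → Nd) (σ : W1 → Nm Cn), ∀ i,
    s i ∈ q'.T ∧ t i ∈ q'.T ∧ (s i).Ec (t i) ∧ (t i).Ex q'.tp ∧ R q' (s i) (t i) (σ i) ∧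
    ∀ j, i < j → (t i).Ec (s j)

/-! ### sets of the model -/

/-- the codes are injective -/
def S_IJ : Prop := (∀ m n : ℕ, nat m = nat n → m = n) ∧
  (∀ (A : V) (O O' : Set (El A)), cs O = cs O' → O = O') ∧
  (∀ (A : V) (O : Set (El A)) (z : V), z ∈ cs O ↔ ∃ h : z ∈ A, ⟨z, h⟩ ∈ O) ∧
  (∀ (A : V) (F : Set (Set (El A))) (O : Set (El A)), cs O ∈ fam F ↔ O ∈ F) ∧
  (∀ (A : V) (F : Set (Set (El A))) (z : V), z ∈ fam F ↔ ∃ O ∈ F, z = cs O) ∧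
  ∀ (A : V) (W : ℕ → Set (El A)) (n : ℕ) (O : Set (El A)),
    ZFSet.pair (nat n) (cs O) ∈ seqS W ↔ O = W n

/-- closure of a transitive model under simple operations -/
def S_ZC : Prop := ∀ N : Set V, IsTransModelZFC N → ∀ A ∈ N,
  (∀ O O' : Set (El A), cs O ∈ N → cs O' ∈ N → cs (O ∩ O') ∈ N ∧ cs Oᶜ ∈ N) ∧
  (∀ F : Set (Set (El A)), fam F ∈ N → cs (⋃₀ F) ∈ N) ∧
  (∀ (F : Set (Set (El A))) (O : Set (El A)), fam F ∈ N → O ∈ F → cs O ∈ N) ∧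
  ∀ (F : Set (Set (El A))) (K L : Set (El A)), fam F ∈ N → cs K ∈ N → cs L ∈ N →
    cs (⋃₀ {U | U ∈ F ∧ (U ∩ K).Nonempty ∧ Disjoint U L}) ∈ N

/-! ### names -/

/-- values of the names of sets -/
def S_BG : Prop := ∀ (ι : Type) (ob : ι → Ob), Function.Injective ob →
  ∀ (a : List Ob → ι → Nm Cn) (E : List Ob → ι → Set Cn),
  Ev pp (fun M G => ∀ l : List Ob, (∀ x ∈ l, x ∈ M) →
    bag (a l) (E l) ∈ pp.H M ∧ (∀ i, ob i ∈ M → a l i ∈ pp.H M) ∧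
    ∀ z, z ∈ pp.vl M G (bag (a l) (E l)) ↔
      ∃ i, ob i ∈ M ∧ (∃ p ∈ G, p ∈ E l i) ∧ z = pp.vl M G (a l i))

/-- the names of the elements -/
def S_EL : Prop := Ev pp (fun M G => (∀ x, Ob.nd x ∈ M → elN x ∈ pp.H M) ∧
  ∀ x y, Ob.nd x ∈ M → Ob.nd y ∈ M → pp.vl M G (elN x) = pp.vl M G (elN y) → x = y)

/-- the underlying set of the space -/
def S_XN : Prop := Ev pp (fun M G => Av M G ∈ pp.N M G ∧
  (∀ z, z ∈ Av M G ↔ ∃ x ∈ PG M G, z = pp.vl M G (elN x)) ∧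
  (∀ O O' : Set Nd, O ⊆ PG M G → O' ⊆ PG M G → im M G O = im M G O' → O = O') ∧
  (∀ W : Set (El (Av M G)), ∃ O ⊆ PG M G, W = im M G O) ∧
  ∀ (O : Set Nd) (x : Nd), O ⊆ PG M G → x ∈ PG M G →
    (pp.vl M G (elN x) ∈ cs (im M G O) ↔ x ∈ O))

/-- sets of points given by names -/
def S_OS : Prop := ∀ E : List Ob → Nd → Set Cn, (∀ l x p, p ∈ E l x → x ∈ p.P) →
  Ev pp (fun M G => ∀ l : List Ob, (∀ x ∈ l, x ∈ M) → bag elN (E l) ∈ pp.H M ∧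
    pp.vl M G (bag elN (E l)) = cs (im M G {x | x ∈ PG M G ∧ ∃ p ∈ G, p ∈ E l x}))

/-- sequences of sets of points given by names -/
def S_SS : Prop := ∀ E : List Ob → ℕ → Nd → Set Cn, (∀ l n x p, p ∈ E l n x → x ∈ p.P) →
  Ev pp (fun M G => ∀ l : List Ob, (∀ x ∈ l, x ∈ M) →
    seqS (fun n => im M G {x | x ∈ PG M G ∧ ∃ p ∈ G, p ∈ E l n x}) ∈ pp.N M G)

/-! ### the generic tree -/

/-- generic facts -/
def S_GF : Prop := Ev pp (fun M G =>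
  (∀ p ∈ G, (∀ s ∈ TG M G, s.len ≤ p.top → s ∈ p.T) ∧ ∀ x ∈ PG M G, x.len ≤ p.top → x ∈ p.P) ∧
  (∀ p ∈ G, ∀ s, Ob.nd s ∈ M → s ∈ p.T → s ∈ TG M G) ∧
  (∀ p ∈ G, ∀ x, Ob.nd x ∈ M → x ∈ p.P → x ∈ PG M G) ∧
  (∀ α, Ob.od α ∈ M → ∃ p ∈ G, α < p.top) ∧
  (∀ s γ, Ob.nd s ∈ M → Ob.od γ ∈ M → Ob.nd (s.res γ) ∈ M) ∧
  (∀ s, Ob.nd s ∈ M → Ob.od s.len ∈ M) ∧
  (∀ p γ, Ob.cn p ∈ M → Ob.od γ ∈ M → Ob.nd (p.r γ) ∈ M) ∧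
  (∀ p, Ob.cn p ∈ M → Ob.od p.top ∈ M) ∧
  (∀ x ∈ PG M G, ∀ γ, Ob.od γ ∈ M → γ < x.len → x.res γ ∈ TG M G) ∧
  (∀ x ∈ PG M G, ∀ γ, Ob.od γ ∈ M → γ < x.len → ∃ δ, Ob.od δ ∈ M ∧ γ < δ ∧ δ < x.len) ∧
  ∀ x ∈ PG M G, ∃ γ, Ob.od γ ∈ M ∧ γ < x.len)

/-- points above nodes -/
def S_G6 : Prop := Ev pp (fun M G => (∀ s ∈ TG M G, (BG M G s).Nonempty) ∧
  ∀ s ∈ TG M G, ∀ t ∈ TG M G, t.Ec s → ∃ x ∈ BG M G t, x ∉ BG M G s)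

/-- truth for `FD` -/
def S_FD : Prop := Ev pp (fun M G => ∀ σ ∈ pp.H M, ∀ t ∈ TG M G,
  ((∀ x ∈ BG M G t, pp.vl M G (elN x) ∈ pp.vl M G σ) ↔ ∃ p ∈ G, FD σ p t))

/-- truth for `FU` -/
def S_FU : Prop := Ev pp (fun M G => ∀ σ ∈ pp.H M, ∀ s ∈ TG M G,
  ((∀ x ∈ PG M G, pp.vl M G (elN x) ∈ pp.vl M G σ → s.Ec x) ↔ ∃ p ∈ G, FU σ p s))

/-- the open sets of the model are given by bounded sets of nodes -/
def S_RP : Prop := Ev pp (fun M G => ∀ O : Set Nd, Op M G O → cs (im M G O) ∈ pp.N M G →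
  ∃ (β : W2) (S : Set Nd), Ob.od β ∈ M ∧ Ob.ss S ∈ M ∧ (∃ p ∈ G, β ≤ p.top ∧ S ⊆ p.T) ∧
    (∀ s ∈ S, s.len < β) ∧ (∀ s ∈ S, Ob.nd s ∈ M → BG M G s ⊆ O) ∧
    ∀ x ∈ O, ∃ s ∈ S, Ob.nd s ∈ M ∧ s.Ec x)

/-- points are separated by nodes -/
def S_SP : Prop := Ev pp (fun M G => ∀ x ∈ PG M G, ∀ y ∈ PG M G, x ≠ y →
  ∃ s ∈ TG M G, s.Ec y ∧ ¬ s.Ec x)

/-- basic sets are comparable or disjoint -/
def S_CO : Prop := ∀ (M : Set Ob) (G : Set Cn) (s t : Nd) (x : Nd), x ∈ BG M G s →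
  x ∈ BG M G t → BG M G s ⊆ BG M G t ∨ BG M G t ⊆ BG M G s

/-! ### the topology -/

/-- the topology belongs to the model -/
def S_TM : Prop := Ev pp (fun M G => fam (TT M G) ∈ pp.N M G)

/-- the base belongs to the model -/
def S_BM : Prop := Ev pp (fun M G => fam (BB M G) ∈ pp.N M G ∧ BB M G ⊆ TT M G ∧
  IsBase (BB M G) (TT M G) ∧ RankOne (BB M G))

/-- it is a topology -/
def S_TP : Prop := Ev pp (fun M G => TopIn (pp.N M G) (Av M G) (TT M G))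

/-- points are closed -/
def S_T1 : Prop := Ev pp (fun M G => ∀ x : El (Av M G), {x}ᶜ ∈ TT M G)

/-- the space is normal -/
def S_NO : Prop := Ev pp (fun M G => ∀ K L : Set (El (Av M G)), Kᶜ ∈ TT M G → Lᶜ ∈ TT M G →
  Disjoint K L → ∃ O ∈ TT M G, ∃ O' ∈ TT M G, K ⊆ O ∧ L ⊆ O' ∧ Disjoint O O')

/-- the complements of the sets `E n` are open -/
def S_OE : Prop := Ev pp (fun M G => ∀ (β : W2) (S : Set Nd), Ob.od β ∈ M → Ob.ss S ∈ M →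
  (∀ s ∈ S, s.len < β) → ∀ p ∈ G, β ≤ p.top → S ⊆ p.T → ∀ n : ℕ,
  Op M G {x | x ∈ PG M G ∧ ¬ ∃ s ∈ S, s.Ec x ∧ (D s.len x.f (p.r β).f).ncard ≤ n})

/-- closed sets are intersections of sequences of open sets -/
def S_PE : Prop := Ev pp (fun M G => ∀ K : Set (El (Av M G)), Kᶜ ∈ TT M G →
  ∃ W : ℕ → Set (El (Av M G)), seqS W ∈ pp.N M G ∧ (∀ n, W n ∈ TT M G) ∧ K = ⋂ n, W n)

/-! ### there is no point-countable base -/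

/-- sequences of choices are decided -/
def S_GE : Prop := ∀ R : List Ob → ℕ → Ob → Cn → Prop,
  (∀ l n x p q, q ≤ p → R l n x p → R l n x q) →
  Ev pp (fun M G => ∀ l : List Ob, (∀ x ∈ l, x ∈ M) → (∀ n, ∃ x, ∃ p ∈ G, R l n x p) →
    ∃ F : ℕ → Ob, Ob.sq F ∈ M ∧ ∃ p ∈ G, ∀ n, R l n (F n) p)

/-- in the model no sequence enumerates `ω₁` different sets -/
def S_SQ : Prop := ∀ a : List Ob → W1 → Nm Cn,
  Ev pp (fun M G => ∀ l : List Ob, (∀ x ∈ l, x ∈ M) → ∀ w ∈ pp.N M G,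
    (∀ i, Ob.w1 i ∈ M → ∃ n : ℕ, ZFSet.pair (nat n) (pp.vl M G (a l i)) ∈ w) →
    (∀ i j, Ob.w1 i ∈ M → Ob.w1 j ∈ M → ∀ n : ℕ, ZFSet.pair (nat n) (pp.vl M G (a l i)) ∈ w →
      ZFSet.pair (nat n) (pp.vl M G (a l j)) ∈ w → i = j) → False)

/-- if the family named by `ν` is a base then a long chain is forced -/
def S_FC : Prop := Ev pp (fun M G => ∀ ν ∈ pp.H M, ∀ B : Set (Set (El (Av M G))),
  pp.vl M G ν = fam B → IsBase B (TT M G) →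
  ∃ q ∈ G, ∃ (s t : W1 → Nd) (σ : W1 → Nm Cn),
    Ob.f1 (fun i => Ob.nd (s i)) ∈ M ∧ Ob.f1 (fun i => Ob.nd (t i)) ∈ M ∧
    Ob.f1 (fun i => Ob.nm (σ i)) ∈ M ∧ ∀ i,
      s i ∈ q.T ∧ t i ∈ q.T ∧ (s i).Ec (t i) ∧ (t i).Ex q.tp ∧ Memf (σ i) ν q ∧
      FD (σ i) q (t i) ∧ FU (σ i) q (s i) ∧ ∀ j, i < j → (t i).Ec (s j))

/-- there is no point-countable base -/
def S_NC : Prop := Ev pp (fun M G => ¬ PointCountableBaseIn (pp.N M G) (TT M G))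

/-- the theorem -/
def S_FI : Prop := ∃ N : Set V, N.Countable ∧ IsTransModelZFC N ∧ ¬ Q1 N

end Pool.Agent.NAM
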